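import Pool.Agent.MP_6b3e96_gt.H77.Spec2

/-!
Assembly of the local lower bound and the index of the matrix.
-/

open scoped ContDiff Topology RealInnerProductSpace MeasureTheory Real
open Set Filter Metric MeasureTheory Complex

noncomputable section

namespace Pool.Agent.MP_6b3e96_gt.H84

open Pool.Agent.MP_6b3e96_gt.H77

theorem sp_mem (i : Fin 4) {t : ℝ} (ht : t ∈ Icc (0 : ℝ) 1) : sp i t ∈ Sq := by
  have h0 : (0 : ℝ) ∈ Icc (0 : ℝ) 1 := ⟨le_rfl, zero_le_one⟩
  have h1 : (1 : ℝ) ∈ Icc (0 : ℝ) 1 := ⟨zero_le_one, le_rfl⟩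
  fin_cases i
  · exact ⟨ht, h0⟩
  · exact ⟨h0, ht⟩
  · exact ⟨h1, ht⟩
  · exact ⟨ht, h1⟩

theorem sd_sp (i : Fin 4) (t : ℝ) : sd i (sp i t) = 0 := by
  fin_cases i <;> simp [sd, sp]

theorem sp_cont (i : Fin 4) : Continuous (sp i) := by
  have h1 : ∀ s : ℝ, Continuous fun t : ℝ => (⟨t, s⟩ : ℂ) := fun s => by
    simp only [Complex.mk_eq_add_mul_I]
    fun_prop
  have h2 : ∀ s : ℝ, Continuous fun t : ℝ => (⟨s, t⟩ : ℂ) := fun s => by
    simp only [Complex.mk_eq_add_mul_I]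
    fun_prop
  fin_cases i
  · exact h1 0
  · exact h2 0
  · exact h2 1
  · exact h1 1

theorem refl_fix (P : Pc) (i : Fin 4) {t : ℝ} (ht : t ∈ Icc (0 : ℝ) 1) :
    refl i (P.g (sp i t)) = P.g (sp i t) := by
  have h := (P.cham _ (sp_mem i ht) i).2.2 (sd_sp i t)
  unfold H77.refl
  rw [Submodule.reflection_eq_self_iff]
  exact Submodule.mem_orthogonal_singleton_iff_inner_right.2 h

theorem line_cont {f : ℂ → ℝ} (hf : ContinuousOn f Sq) (i : Fin 4) :
    ContinuousOn (fun t => f (sp i t)) (Icc (0 : ℝ) 1) :=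
  hf.comp (sp_cont i).continuousOn fun _ ht => sp_mem i ht

theorem line_int {f : ℂ → ℝ} (hf : ContinuousOn f Sq) (i : Fin 4) {l : ℝ → ℝ}
    (hl : Continuous l) : IntervalIntegrable (fun t => f (sp i t) * l t) volume 0 1 :=
  ((line_cont hf i).mul hl.continuousOn).intervalIntegrable_of_Icc zero_le_one

theorem mx_pos {w : ℂ} (hw : w ∈ Sq) (h0 : w ≠ 0) : 0 < mx w := by
  obtain ⟨⟨h1, -⟩, h3, -⟩ := hw
  by_contra h
  have h4 : w.re ≤ mx w := le_max_left _ _
  have h5 : w.im ≤ mx w := le_max_right _ _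
  apply h0
  apply Complex.ext
  · simp only [Complex.zero_re]; linarith [not_lt.1 h]
  · simp only [Complex.zero_im]; linarith [not_lt.1 h]

/-- The local estimate for one function on the piece. -/
theorem local_bound (hL : LocalStmt) (P : Pc) {Vp : ℂ → ℝ} {φ σ₁ σ₂ : Fin 4 × Fin 3 → ℂ → ℝ}
    {L : Fin 3 → ℝ → ℝ} (hC : Cert Vp φ σ₁ σ₂ L) (hV : ∀ w ∈ Sq, w ≠ 0 → P.V w ≤ Vp w)
    {G : E4 → ℝ} (hG : ContDiff ℝ 1 G) (y : Fin 4 × Fin 3 → ℝ)
    (hy : ∀ i m, y (i, m) = ∫ t in (0 : ℝ)..1, G (P.g (sp i t)) * L m t) :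
    ∑ a, ∑ b, (lamM a b : ℝ) * y a * y b ≤ 2 ^ 16 * form P.V fun w => G (P.g w) := by
  refine (hC.gram y).trans (mul_le_mul_of_nonneg_left ?_ (by positivity))
  obtain ⟨C, hCb⟩ := P.bd
  obtain ⟨K, hK⟩ := ((isCompact_sphere (0 : E4) 1).image_of_continuousOn
    ((hG.continuous_fderiv one_ne_zero).norm.continuousOn)).bddAbove
  have hK' : ∀ w ∈ Sq, ‖fderiv ℝ G (P.g w)‖ ≤ K := fun w hw =>
    hK ⟨P.g w, by simpa using P.sph w hw, rfl⟩
  have hfc : ContinuousOn (fun w => G (P.g w)) Sq := hG.continuous.comp_continuousOn P.cont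
  have hsum : ∀ ψ : Fin 4 × Fin 3 → ℂ → ℝ, (∀ a, ContDiff ℝ 1 (ψ a)) →
      ContDiff ℝ 1 fun z => ∑ a, y a * ψ a z := fun ψ h =>
    ContDiff.sum fun a _ => contDiff_const.mul (h a)
  have hφ := hsum φ fun a => (hC.sm a).1
  have hmom : ∀ i m, ∫ t in (0 : ℝ)..1,
      (G (P.g (sp i t)) - ∑ a, y a * φ a (sp i t)) * L m t = 0 := by
    intro i m
    have e1 : ∀ t, (G (P.g (sp i t)) - ∑ a, y a * φ a (sp i t)) * L m t =
        G (P.g (sp i t)) * L m t - ∑ a, y a * (φ a (sp i t) * L m t) := by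
      intro t
      rw [sub_mul, Finset.sum_mul]
      simp only [mul_assoc]
    have hi : ∀ a, IntervalIntegrable (fun t => y a * (φ a (sp i t) * L m t)) volume 0 1 :=
      fun a => (line_int (hC.sm a).1.continuous.continuousOn i (hC.Lc m)).const_mul _
    simp only [e1]
    rw [intervalIntegral.integral_sub (line_int hfc i (hC.Lc m))
      (by
        have := IntervalIntegrable.sum (μ := volume) (a := 0) (b := 1) Finset.univ
          (f := fun a t => y a * (φ a (sp i t) * L m t)) fun a _ => hi a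
        rwa [Finset.sum_fn] at this), intervalIntegral.integral_finsetSum fun a _ => hi a]
    simp only [intervalIntegral.integral_const_mul, hC.dual, mul_ite, mul_one, mul_zero,
      Finset.sum_ite_eq', Finset.mem_univ, if_true, hy, sub_self]
  have hdc : ContinuousOn (fun w => G (P.g w) - ∑ a, y a * φ a w) Sq :=
    hfc.sub hφ.continuous.continuousOn
  refine hL P.V Vp (fun w => G (P.g w)) _ _ _ (max C (K ^ 2 * C)) P.Vc hC.Vc ?_ hfc ?_ hφ
    (hsum σ₁ fun a => (hC.sm a).2.1) (hsum σ₂ fun a => (hC.sm a).2.2) ?_ ?_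
  · intro w hw h0
    exact ⟨(hCb w hw h0).2.trans (div_le_div_of_nonneg_right (le_max_left _ _) (norm_nonneg _)),
      hV w hw h0, hC.Vb w hw h0⟩
  · intro w hw h0
    have hg := P.sm w hw h0
    refine ⟨hG.contDiffAt.comp w hg, ?_⟩
    have h1 : fderiv ℝ (fun w => G (P.g w)) w = (fderiv ℝ G (P.g w)).comp (fderiv ℝ P.g w) :=
      fderiv_comp w (hG.differentiable one_ne_zero _) (hg.differentiableAt one_ne_zero)
    have h2 : ‖fderiv ℝ P.g w‖ ≤ P.lam w :=
      ContinuousLinearMap.opNorm_le_bound _ (P.conf w hw h0).1.le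
        fun v => ((P.conf w hw h0).2 v).le
    have h3 : ‖fderiv ℝ (fun w => G (P.g w)) w‖ ≤ K * P.lam w := by
      rw [h1]
      exact (ContinuousLinearMap.opNorm_comp_le _ _).trans
        (mul_le_mul (hK' w hw) h2 (norm_nonneg _) ((norm_nonneg _).trans (hK' w hw)))
    calc ‖fderiv ℝ (fun w => G (P.g w)) w‖ ^ 2 ≤ (K * P.lam w) ^ 2 :=
          pow_le_pow_left₀ (norm_nonneg _) h3 2
      _ = K ^ 2 * P.lam w ^ 2 := by ring
      _ ≤ K ^ 2 * (C / ‖w‖) := mul_le_mul_of_nonneg_left (hCb w hw h0).1 (sq_nonneg _)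
      _ = K ^ 2 * C / ‖w‖ := by ring
      _ ≤ _ := div_le_div_of_nonneg_right (le_max_right _ _) (norm_nonneg _)
  · intro i
    simpa [hC.L0] using hmom i 0
  · intro i
    have hsp : ∃ c : Fin 3 → ℝ, ∀ t, ![fun z => ∑ a, y a * σ₂ a z, fun z => ∑ a, y a * σ₁ a z,
        fun z => ∑ a, y a * σ₁ a z, fun z => ∑ a, y a * σ₂ a z] i (sp i t) = ∑ m, c m * L m t := by
      choose c hc using fun a => hC.span a i
      refine ⟨fun m => ∑ a, y a * c a m, fun t => ?_⟩
      have e1 : ![fun z => ∑ a, y a * σ₂ a z, fun z => ∑ a, y a * σ₁ a z,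
          fun z => ∑ a, y a * σ₁ a z, fun z => ∑ a, y a * σ₂ a z] i (sp i t) =
          ∑ a, y a * ![σ₂, σ₁, σ₁, σ₂] i a (sp i t) := by
        fin_cases i <;> rfl
      rw [e1]
      simp only [hc, Finset.mul_sum, Finset.sum_mul, mul_assoc]
      exact Finset.sum_comm
    obtain ⟨c, hc⟩ := hsp
    simp only [hc, Finset.mul_sum]
    rw [intervalIntegral.integral_finsetSum fun m _ => line_int hdc i
      (l := fun t => c m * L m t) (continuous_const.mul (hC.Lc m))]
    refine Finset.sum_eq_zero fun m _ => ?_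
    have e2 : ∀ t, (G (P.g (sp i t)) - ∑ a, y a * φ a (sp i t)) * (c m * L m t) =
        c m * ((G (P.g (sp i t)) - ∑ a, y a * φ a (sp i t)) * L m t) := fun t => by ring
    simp only [e2]
    rw [intervalIntegral.integral_const_mul, hmom, mul_zero]

theorem final : FinalStmt := by
  intro hL hA hG hGl hCell P Vp φ σ₁ σ₂ L hC hV
  obtain ⟨S, hSM, hS⟩ := hGl P
  obtain ⟨e, he⟩ := hG.1
  refine ⟨S, ?_, fun F hF => (hS F hF).1, fun F hF => ?_⟩
  · unfold MinSurf.HasGenus
    rw [hSM]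
    exact hCell P
  have hsm : ∀ k : W, ContDiff ℝ ∞ fun x : E4 => k.1 x := fun k => k.1.contDiff
  have hcont : ∀ j (k : W), ContinuousOn (fun w => F j (k.1 (P.g w))) Sq := fun j k =>
    ((hF j).continuous.comp (hsm k).continuous).comp_continuousOn P.cont
  let mom : Fin 139 → Fin 16 × Fin 72 → Fin 4 × Fin 3 → ℝ := fun j k a =>
    ∫ t in (0 : ℝ)..1, F j ((e k).1 (P.g (sp a.1 t))) * L a.2 t
  let y : (Fin 139 → ℝ) →ₗ[ℝ] (Fin 16 × Fin 72 → Fin 4 × Fin 3 → ℝ) :=
    { toFun := fun c k a => ∑ j, c j * mom j k a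
      map_add' := fun c c' => by
        funext k a
        simp only [Pi.add_apply, add_mul, Finset.sum_add_distrib]
      map_smul' := fun r c => by
        funext k a
        simp only [Pi.smul_apply, smul_eq_mul, RingHom.id_apply, Finset.mul_sum, mul_assoc] }
  have hmom : ∀ j k i m, mom j (nbr k i) (i, m) = mom j k (i, m) := by
    intro j k i m
    refine intervalIntegral.integral_congr fun t ht => ?_
    rw [uIcc_of_le zero_le_one] at ht
    have : (e (nbr k i)).1 (P.g (sp i t)) = (e k).1 (P.g (sp i t)) := by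
      rw [← he]
      change (e k).1 (H77.refl i (P.g (sp i t))) = _
      rw [refl_fix P i ht]
    simp only [this]
  obtain ⟨c, hc0, hc⟩ := hA y fun c k i m => by
    change ∑ j, c j * mom j (nbr k i) (i, m) = ∑ j, c j * mom j k (i, m)
    simp only [hmom]
  have hFc : ContDiff ℝ ∞ fun x => ∑ j, c j * F j x :=
    ContDiff.sum fun j _ => contDiff_const.mul (hF j)
  refine ⟨c, hc0, ?_⟩
  rw [(hS _ hFc).2]
  have : Fintype W := Fintype.ofEquiv _ e
  rw [finsum_eq_sum_of_fintype, ← Equiv.sum_comp e]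
  have hk : ∀ k, ∑ a, ∑ b, (lamM a b : ℝ) * y c k a * y c k b ≤
      2 ^ 16 * form P.V fun w => ∑ j, c j * F j ((e k).1 (P.g w)) := by
    intro k
    refine local_bound hL P hC hV (G := fun x => ∑ j, c j * F j ((e k).1 x))
      ((hFc.comp (hsm (e k))).of_le (by exact_mod_cast le_top)) (y c k) fun i m => ?_
    change ∑ j, c j * mom j k (i, m) = _
    simp only [Finset.sum_mul, mul_assoc]
    rw [intervalIntegral.integral_finsetSum fun j _ =>
      (line_int (hcont j (e k)) i (hC.Lc m)).const_mul _]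
    simp only [intervalIntegral.integral_const_mul, mom]
  have h2 := hc.trans (Finset.sum_le_sum fun k _ => hk k)
  rw [← Finset.mul_sum] at h2
  exact nonneg_of_mul_nonneg_right h2 (by positivity)

end Pool.Agent.MP_6b3e96_gt.H84
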